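import Pool.Agent.Helper93.JD.Limit

set_option autoImplicit false

/-!
# Optimality of the exponent threshold for Jarnik type convergence on affine subspaces
-/

namespace Pool.Agent.Results.MP_9bea5e_nt.FailsAboveThreshold

open MeasureTheory Set

/-- Sup-norm distance from `y` to the nearest integer vector. -/
noncomputable def distInt {n : ℕ} (y : Fin n → ℝ) : ℝ := ⨅ k : Fin n → ℤ, ‖y - fun i => (k i : ℝ)‖

/-- The Diophantine exponent `ω(A)`: the supremum (in `[-∞,∞]`) of all real `w` such that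
`‖A qᵀ‖ < |q|^{-w}` for infinitely many integer vectors `q`. -/
noncomputable def omega {d m : ℕ} (A : Matrix (Fin (d + 1)) (Fin m) ℝ) : EReal :=
  ⨆ (w : ℝ) (_ : {q : Fin m → ℤ | distInt (A.mulVec fun j => (q j : ℝ)) <
    ‖(fun j => (q j : ℝ) : Fin m → ℝ)‖ ^ (-w)}.Infinite), (w : EReal)

/-- The affine subspace `L_A = {(x, x̃ A)}`, with `x̃ = (1, x)`. -/
def LA {d m : ℕ} (A : Matrix (Fin (d + 1)) (Fin m) ℝ) : Set (Fin (d + m) → ℝ) :=
  Set.range fun x : Fin d → ℝ => Fin.append x (Matrix.vecMul (Fin.cons 1 x) A)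

/-- The inhomogeneously `ψ`-approximable points. -/
def SS {n : ℕ} (ψ : ℕ → ℝ) (θ : Fin n → ℝ) : Set (Fin n → ℝ) :=
  {y | {q : ℕ | 1 ≤ q ∧ distInt ((q : ℝ) • y - θ) < ψ q}.Infinite}

lemma distInt_lt_iff {n : ℕ} (y : Fin n → ℝ) (ε : ℝ) :
    distInt y < ε ↔ ∃ k : Fin n → ℤ, ‖y - fun i => (k i : ℝ)‖ < ε := by
  constructor
  · intro h
    exact exists_lt_of_ciInf_lt h
  · rintro ⟨k, hk⟩
    refine lt_of_le_of_lt (ciInf_le ?_ k) hk
    exact ⟨0, by rintro _ ⟨k, rfl⟩; exact norm_nonneg _⟩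

/-- From the exponent to resonances. -/
lemma resonances {d m : ℕ} (hm : 1 ≤ m) (A : Matrix (Fin (d + 1)) (Fin m) ℝ) {w : ℝ}
    (hinf : {q : Fin m → ℤ | distInt (A.mulVec fun j => (q j : ℝ)) <
      ‖(fun j => (q j : ℝ) : Fin m → ℝ)‖ ^ (-w)}.Infinite) (X0 : ℕ) :
    ∃ (q : Fin m → ℤ) (Q : ℕ) (j0 : Fin m) (n0 : ℤ) (n1 : Fin d → ℤ), X0 ≤ Q ∧
      (∀ j, |q j| ≤ Q) ∧ |q j0| = Q ∧ |∑ j, A 0 j * q j - n0| ≤ (Q : ℝ) ^ (-w) ∧
      ∀ i : Fin d, |∑ j, A i.succ j * q j - n1 i| ≤ (Q : ℝ) ^ (-w) := by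
  classical
  have : Nonempty (Fin m) := ⟨⟨0, hm⟩⟩
  -- a vector outside the box
  have hfin : {q : Fin m → ℤ | ∀ j, |q j| < X0}.Finite := by
    refine Set.Finite.subset (Set.finite_Icc (fun _ => -(X0 : ℤ)) (fun _ => (X0 : ℤ))) ?_
    intro q hq
    exact ⟨fun j => (abs_lt.mp (hq j)).1.le, fun j => (abs_lt.mp (hq j)).2.le⟩
  obtain ⟨q, hq, hqn⟩ := (hinf.sdiff hfin).nonempty
  simp only [mem_ofPred_eq, not_forall, not_lt] at hqn
  obtain ⟨j1, hj1⟩ := hqn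
  obtain ⟨j0, _, hj0⟩ := Finset.exists_max_image Finset.univ (fun j => |q j|)
    Finset.univ_nonempty
  have hmax : ∀ j, |q j| ≤ |q j0| := fun j => hj0 j (Finset.mem_univ j)
  have hQ : ((q j0).natAbs : ℤ) = |q j0| := Int.natCast_natAbs _
  have hnorm : ‖(fun j => (q j : ℝ) : Fin m → ℝ)‖ = ((q j0).natAbs : ℝ) := by
    have hcast : ((q j0).natAbs : ℝ) = |(q j0 : ℝ)| := by
      rw [Nat.cast_natAbs, Int.cast_abs]
    rw [hcast]
    refine le_antisymm ?_ ?_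
    · rw [pi_norm_le_iff_of_nonneg (abs_nonneg _)]
      intro j
      rw [Real.norm_eq_abs]
      have := hmax j
      exact_mod_cast this
    · have := norm_le_pi_norm (fun j => (q j : ℝ) : Fin m → ℝ) j0
      rwa [Real.norm_eq_abs] at this
  rw [mem_ofPred_eq, hnorm, distInt_lt_iff] at hq
  obtain ⟨k, hk⟩ := hq
  have hk' : ∀ i, |∑ j, A i j * q j - k i| ≤ ((q j0).natAbs : ℝ) ^ (-w) := by
    intro i
    have h1 := (norm_le_pi_norm ((A.mulVec fun j => (q j : ℝ)) - fun i => (k i : ℝ)) i).trans hk.le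
    rw [Real.norm_eq_abs] at h1
    exact h1
  refine ⟨q, (q j0).natAbs, j0, k 0, fun i => k i.succ, ?_, ?_, ?_, hk' 0, fun i => hk' i.succ⟩
  · have h1 : (X0 : ℤ) ≤ (q j0).natAbs := by rw [hQ]; exact hj1.trans (hmax j1)
    exact_mod_cast h1
  · intro j; rw [hQ]; exact hmax j
  · exact hQ.symm

/-- Choice of the exponents. -/
lemma exponents {d m : ℕ} (hm : 1 ≤ m) {s w : ℝ} (hs : 0 < s) (hsd : s < d)
    (hw : (m + s) / (d + 1 - s) < w) : ∃ η b s' : ℝ, 0 < η ∧ 0 < b ∧ b + η < w ∧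
      b * (d + 1 - s) = (1 + η) * (m + s) - η / 2 ∧ s < s' ∧ s' < d ∧ b * (s' - s) ≤ η / 4 := by
  have hD : 0 < (d : ℝ) + 1 - s := by linarith
  have hm' : (1 : ℝ) ≤ m := by exact_mod_cast hm
  set β : ℝ := (m + s) / (d + 1 - s) with hβ
  have hβ0 : 0 < β := by rw [hβ]; positivity
  have hβD : β * (d + 1 - s) = m + s := by rw [hβ]; field_simp
  set η : ℝ := (w - β) / (2 * (β + 1)) with hη
  have hη0 : 0 < η := div_pos (by linarith) (by positivity)
  have hηβ : η * (β + 1) = (w - β) / 2 := by rw [hη]; field_simp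
  set b : ℝ := ((1 + η) * (m + s) - η / 2) / (d + 1 - s) with hb
  have hbD : b * (d + 1 - s) = (1 + η) * (m + s) - η / 2 := by rw [hb]; field_simp
  have hb0 : 0 < b := by
    rw [hb]; refine div_pos ?_ hD
    nlinarith
  have hb1 : b < (1 + η) * β := by
    have h1 : b * (d + 1 - s) < (1 + η) * β * (d + 1 - s) := by
      rw [hbD, mul_assoc, hβD]; linarith
    exact lt_of_mul_lt_mul_right h1 hD.le
  refine ⟨η, b, s + min ((d - s) / 2) (η / (4 * b)), hη0, hb0, ?_, hbD, ?_, ?_, ?_⟩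
  · nlinarith
  · have : 0 < min ((d - s) / 2) (η / (4 * b)) := lt_min (by linarith) (by positivity)
    linarith
  · have : min ((d - s) / 2) (η / (4 * b)) ≤ (d - s) / 2 := min_le_left _ _
    linarith
  · have h1 : min ((d - s) / 2) (η / (4 * b)) ≤ η / (4 * b) := min_le_right _ _
    calc b * (s + min ((d - s) / 2) (η / (4 * b)) - s) = b * min ((d - s) / 2) (η / (4 * b)) := by
          ring
      _ ≤ b * (η / (4 * b)) := by gcongr
      _ = η / 4 := by field_simp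

/-- For all `d, m ≥ 1`, `0 < s < d` and every `A` with `ω(A) > (m+s)/(d+1-s)` there are a strictly
decreasing positive `ψ` with `∑ ψ(q)^{m+s} q^{d-s} < ∞` and a shift `θ` such that
`H^s(S(ψ,θ) ∩ L_A) > 0`. -/
theorem result {d m : ℕ} (_hd : 1 ≤ d) (hm : 1 ≤ m) {s : ℝ} (hs : 0 < s) (hsd : s < d)
    (A : Matrix (Fin (d + 1)) (Fin m) ℝ)
    (hA : (((m + s) / (d + 1 - s) : ℝ) : EReal) < omega A) :
    ∃ ψ : ℕ → ℝ, (∀ q, 0 < ψ q) ∧ StrictAnti ψ ∧
      Summable (fun q : ℕ => ψ q ^ ((m : ℝ) + s) * (q : ℝ) ^ ((d : ℝ) - s)) ∧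
      ∃ θ : Fin (d + m) → ℝ, 0 < μH[s] (SS ψ θ ∩ LA A) := by
  classical
  rw [omega] at hA
  simp only [lt_iSup_iff, EReal.coe_lt_coe_iff] at hA
  obtain ⟨w, hinf, hw⟩ := hA
  obtain ⟨η, b, s', hη, hb, hbw, hbD, hss', hs'd, hbs⟩ := exponents hm hs hsd hw
  obtain ⟨C, hC, hst⟩ := Helper93.JD.stageProp (A0 := A 0) (A1 := fun i => A i.succ) hs hη hb hbw
    hbD hss' hs'd hbs hm (resonances hm A hinf)
  obtain ⟨ψ, θ, hψ0, hψa, hψs, hpos⟩ := Helper93.JD.exists_of_stageProp hst hC hs hsd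
  refine ⟨ψ, hψ0, hψa, hψs, Fin.append θ.1 θ.2, ?_⟩
  set K : Set (Fin d → ℝ) := {x : Fin d → ℝ | {q : ℕ | Helper93.JD.Good (A 0)
    (fun i => A i.succ) x θ q (ψ q)}.Infinite} with hK
  let π : (Fin (d + m) → ℝ) → (Fin d → ℝ) := fun y i => y (Fin.castAdd m i)
  have hπ : LipschitzWith 1 π := by
    refine LipschitzWith.of_dist_le_mul fun y z => ?_
    rw [NNReal.coe_one, one_mul, dist_pi_le_iff dist_nonneg]
    intro i
    exact dist_le_pi_dist y z (Fin.castAdd m i)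
  have hsub : K ⊆ π '' (SS ψ (Fin.append θ.1 θ.2) ∩ LA A) := by
    intro x hx
    refine ⟨Fin.append x (Matrix.vecMul (Fin.cons 1 x) A), ⟨?_, ⟨x, rfl⟩⟩, ?_⟩
    · refine (hx.sdiff (Set.finite_singleton 0)).mono ?_
      rintro q ⟨⟨hg1, hg2⟩, hq0⟩
      have hq0' : q ≠ 0 := hq0
      refine ⟨by omega, ?_⟩
      rw [distInt_lt_iff]
      choose k1 hk1 using hg1
      choose k2 hk2 using hg2
      refine ⟨Fin.append k1 k2, ?_⟩
      rw [pi_norm_lt_iff (hψ0 q)]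
      intro i
      rw [Real.norm_eq_abs]
      refine Fin.addCases (fun i => ?_) (fun j => ?_) i
      · simp only [Pi.sub_apply, Pi.smul_apply, Fin.append_left, smul_eq_mul]
        exact hk1 i
      · simp only [Pi.sub_apply, Pi.smul_apply, Fin.append_right, smul_eq_mul]
        have : Matrix.vecMul (Fin.cons 1 x) A j = A 0 j + ∑ i, x i * A i.succ j := by
          rw [Matrix.vecMul, dotProduct, Fin.sum_univ_succ]
          simp
        rw [this]
        exact hk2 j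
    · funext i
      simp [π]
  have h1 : μH[s] K ≤ μH[s] (SS ψ (Fin.append θ.1 θ.2) ∩ LA A) := by
    refine (measure_mono hsub).trans ?_
    have := hπ.hausdorffMeasure_image_le hs.le (SS ψ (Fin.append θ.1 θ.2) ∩ LA A)
    simpa using this
  exact lt_of_lt_of_le hpos h1

end Pool.Agent.Results.MP_9bea5e_nt.FailsAboveThreshold
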